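import Pool.Agent.H890R2.Geo4.Transfer

set_option autoImplicit false

/-! The nonabelian group of order 21. -/

namespace Pool.Agent.H890R2.Geo4

open CategoryTheory Representation

/-- The nonabelian group of order 21: pairs `(a, b)` with product
`(a, b) (a', b') = (a + 2^b a', b + b')`. -/
@[ext] structure G21 where
  /-- first coordinate -/
  a : ZMod 7
  /-- second coordinate -/
  b : ZMod 3
deriving DecidableEq

namespace G21

/-- the underlying pairs -/
def toPair : G21 ≃ ZMod 7 × ZMod 3 where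
  toFun g := (g.a, g.b)
  invFun p := ⟨p.1, p.2⟩
  left_inv _ := rfl
  right_inv _ := rfl

instance : Fintype G21 := Fintype.ofEquiv _ toPair.symm

/-- `2^b` -/
def tw (b : ZMod 3) : ZMod 7 := 2 ^ b.val

lemma tw_add : ∀ b b' : ZMod 3, tw (b + b') = tw b * tw b' := by decide
lemma tw_zero : tw 0 = 1 := by decide
lemma tw_neg : ∀ b : ZMod 3, tw (-b) * tw b = 1 := by decide

instance : Mul G21 := ⟨fun g h => ⟨g.a + tw g.b * h.a, g.b + h.b⟩⟩
instance : One G21 := ⟨⟨0, 0⟩⟩
instance : Inv G21 := ⟨fun g => ⟨-(tw (-g.b) * g.a), -g.b⟩⟩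

@[simp] lemma mul_a (g h : G21) : (g * h).a = g.a + tw g.b * h.a := rfl
@[simp] lemma mul_b (g h : G21) : (g * h).b = g.b + h.b := rfl
@[simp] lemma one_a : (1 : G21).a = 0 := rfl
@[simp] lemma one_b : (1 : G21).b = 0 := rfl
@[simp] lemma inv_a (g : G21) : (g⁻¹).a = -(tw (-g.b) * g.a) := rfl
@[simp] lemma inv_b (g : G21) : (g⁻¹).b = -g.b := rfl

instance : Group G21 := Group.ofLeftAxioms
  (by
    intro g h l
    ext1
    · simp only [mul_a, mul_b, tw_add]; ring
    · simp only [mul_b]; ring)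
  (by
    intro g
    ext1
    · simp [tw_zero]
    · simp)
  (by
    intro g
    ext1
    · simp
    · simp)

lemma card_eq : Fintype.card G21 = 21 := by
  rw [Fintype.card_congr toPair, Fintype.card_prod, ZMod.card, ZMod.card]

/-- generator of order 7 -/
def X : G21 := ⟨1, 0⟩
/-- generator of order 3 -/
def Y : G21 := ⟨0, 1⟩

lemma X_pow (n : ℕ) : X ^ n = ⟨n, 0⟩ := by
  induction n with
  | zero => rfl
  | succ k ih =>
    rw [pow_succ, ih]
    ext1
    · simp [X, tw_zero]
    · simp [X]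

lemma Y_pow (n : ℕ) : Y ^ n = ⟨0, n⟩ := by
  induction n with
  | zero => rfl
  | succ k ih =>
    rw [pow_succ, ih]
    ext1
    · simp [Y]
    · simp [Y]

lemma X_pow_seven : X ^ 7 = 1 := by rw [X_pow]; rfl
lemma Y_pow_three : Y ^ 3 = 1 := by rw [Y_pow]; rfl
lemma rel : Y * X * Y⁻¹ = X ^ 2 := by decide

lemma X_ne : X ≠ 1 := by decide
lemma Y_ne : Y ≠ 1 := by decide

lemma orderOf_X : orderOf X = 7 := by
  have : Fact (Nat.Prime 7) := ⟨by norm_num⟩
  exact orderOf_eq_prime X_pow_seven X_ne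
lemma orderOf_Y : orderOf Y = 3 := by
  have : Fact (Nat.Prime 3) := ⟨Nat.prime_three⟩
  exact orderOf_eq_prime Y_pow_three Y_ne

end G21

/-! ### presentation -/

/-- the two relators `y x y⁻¹ x⁻²` and `y³` in the free group on `x, y` -/
def rels : Fin 2 → FreeGroup (Fin 2) :=
  ![FreeGroup.of 1 * FreeGroup.of 0 * (FreeGroup.of 1)⁻¹ * ((FreeGroup.of 0) ^ 2)⁻¹,
    (FreeGroup.of 1) ^ 3]

/-- the map from the presented group -/
def toG21 : PresentedGroup (Set.range rels) →* G21 :=
  PresentedGroup.toGroup (f := ![G21.X, G21.Y]) (by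
    rintro r ⟨i, rfl⟩
    fin_cases i
    · simp [rels, G21.rel]
    · simp [rels, G21.Y_pow_three])

section

variable {H : Type*} [Group H] {x y : H}

lemma conj_pow' (hxy : y * x * y⁻¹ = x ^ 2) (n : ℕ) : y ^ n * x * (y ^ n)⁻¹ = x ^ (2 ^ n) := by
  induction n with
  | zero => simp
  | succ k ih =>
    have h1 : y ^ (k + 1) * x * (y ^ (k + 1))⁻¹ = y * (y ^ k * x * (y ^ k)⁻¹) * y⁻¹ := by
      rw [pow_succ' y k, mul_inv_rev]; group
    rw [h1, ih, ← conj_pow, hxy, ← pow_mul, pow_succ']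

lemma pow_seven (hxy : y * x * y⁻¹ = x ^ 2) (hy : y ^ 3 = 1) : x ^ 7 = 1 := by
  have h := conj_pow' hxy 3
  rw [hy] at h
  have h2 : x ^ (2 ^ 3) = x ^ 7 * x := by
    rw [← pow_succ]; norm_num
  rw [h2] at h
  simp only [one_mul, inv_one, mul_one] at h
  exact (mul_eq_right (a := x ^ 7) (b := x)).1 h.symm

lemma move (hxy : y * x * y⁻¹ = x ^ 2) (n m : ℕ) : y ^ n * x ^ m = x ^ (2 ^ n * m) * y ^ n := by
  have h := conj_pow' hxy n
  have h1 : y ^ n * x ^ m * (y ^ n)⁻¹ = x ^ (2 ^ n * m) := by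
    rw [← conj_pow, h, pow_mul]
  rw [← h1]; group

/-- the homomorphism from the group of order 21 defined by two elements satisfying the relations -/
def liftG21 (x y : H) (hxy : y * x * y⁻¹ = x ^ 2) (hy : y ^ 3 = 1) : G21 →* H where
  toFun g := x ^ g.a.val * y ^ g.b.val
  map_one' := by
    have h1 : (1 : G21).a.val = 0 := rfl
    have h2 : (1 : G21).b.val = 0 := rfl
    rw [h1, h2]; simp
  map_mul' g h := by
    have hx7 := pow_seven hxy hy
    have e1 : ∀ (a : ZMod 7) (b : ZMod 3) (a' : ZMod 7),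
        (a + G21.tw b * a').val = (a.val + 2 ^ b.val * a'.val) % 7 := by decide
    have e2 : ∀ b b' : ZMod 3, (b + b').val = (b.val + b'.val) % 3 := by decide
    have hxm : ∀ n : ℕ, x ^ (n % 7) = x ^ n := fun n => (pow_eq_pow_mod n hx7).symm
    have hym : ∀ n : ℕ, y ^ (n % 3) = y ^ n := fun n => (pow_eq_pow_mod n hy).symm
    rw [G21.mul_a, G21.mul_b, e1, e2, hxm, hym, pow_add, pow_add]
    calc x ^ g.a.val * x ^ (2 ^ g.b.val * h.a.val) * (y ^ g.b.val * y ^ h.b.val)
        = x ^ g.a.val * (x ^ (2 ^ g.b.val * h.a.val) * y ^ g.b.val) * y ^ h.b.val := by group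
      _ = x ^ g.a.val * (y ^ g.b.val * x ^ h.a.val) * y ^ h.b.val := by rw [move hxy]
      _ = x ^ g.a.val * y ^ g.b.val * (x ^ h.a.val * y ^ h.b.val) := by group

lemma liftG21_X (hxy : y * x * y⁻¹ = x ^ 2) (hy : y ^ 3 = 1) : liftG21 x y hxy hy G21.X = x := by
  change x ^ (1 : ZMod 7).val * y ^ (0 : ZMod 3).val = x
  have h1 : (1 : ZMod 7).val = 1 := rfl
  have h2 : (0 : ZMod 3).val = 0 := rfl
  rw [h1, h2]; simp

lemma liftG21_Y (hxy : y * x * y⁻¹ = x ^ 2) (hy : y ^ 3 = 1) : liftG21 x y hxy hy G21.Y = y := by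
  change x ^ (0 : ZMod 7).val * y ^ (1 : ZMod 3).val = y
  have h1 : (0 : ZMod 7).val = 0 := rfl
  have h2 : (1 : ZMod 3).val = 1 := rfl
  rw [h1, h2]; simp

end

lemma G21.eq_prod (g : G21) : g = G21.X ^ g.a.val * G21.Y ^ g.b.val := by
  rw [G21.X_pow, G21.Y_pow]
  ext1
  · simp
  · simp

lemma rel1 : (PresentedGroup.of (rels := Set.range rels) 1) *
    (PresentedGroup.of (rels := Set.range rels) 0) *
    (PresentedGroup.of (rels := Set.range rels) 1)⁻¹ =
    (PresentedGroup.of (rels := Set.range rels) 0) ^ 2 := by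
  have h : PresentedGroup.mk (Set.range rels) (rels 0) = 1 :=
    PresentedGroup.one_of_mem ⟨0, rfl⟩
  have h2 : PresentedGroup.mk (Set.range rels) (rels 0) =
      (PresentedGroup.of (rels := Set.range rels) 1) *
    (PresentedGroup.of (rels := Set.range rels) 0) *
    (PresentedGroup.of (rels := Set.range rels) 1)⁻¹ *
    ((PresentedGroup.of (rels := Set.range rels) 0) ^ 2)⁻¹ := by
    have h3 : rels 0 = FreeGroup.of 1 * FreeGroup.of 0 * (FreeGroup.of 1)⁻¹ *
      ((FreeGroup.of 0) ^ 2)⁻¹ := rfl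
    rw [h3, map_mul, map_mul, map_mul, map_inv, map_inv, map_pow]
    rfl
  rw [h2] at h
  exact mul_inv_eq_one.1 h

lemma rel2 : (PresentedGroup.of (rels := Set.range rels) 1) ^ 3 = 1 := by
  have h : PresentedGroup.mk (Set.range rels) (rels 1) = 1 :=
    PresentedGroup.one_of_mem ⟨1, rfl⟩
  have h2 : PresentedGroup.mk (Set.range rels) (rels 1) =
      (PresentedGroup.of (rels := Set.range rels) 1) ^ 3 := by
    have h3 : rels 1 = (FreeGroup.of 1) ^ 3 := rfl
    rw [h3, map_pow]
    rfl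
  rw [← h2, h]

/-- the group of order 21 has the balanced presentation `⟨x, y | y x y⁻¹ = x², y³ = 1⟩` -/
noncomputable def presEquiv : PresentedGroup (Set.range rels) ≃* G21 :=
  MonoidHom.toMulEquiv toG21 (liftG21 _ _ rel1 rel2)
    (by
      apply PresentedGroup.ext
      intro i
      fin_cases i
      · change liftG21 _ _ rel1 rel2 (toG21 (PresentedGroup.of 0)) = PresentedGroup.of 0
        have : toG21 (PresentedGroup.of 0) = G21.X := by simp [toG21]
        rw [this, liftG21_X]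
      · change liftG21 _ _ rel1 rel2 (toG21 (PresentedGroup.of 1)) = PresentedGroup.of 1
        have : toG21 (PresentedGroup.of 1) = G21.Y := by simp [toG21]
        rw [this, liftG21_Y])
    (by
      ext1 g
      have hX : toG21 (PresentedGroup.of 0) = G21.X := by simp [toG21]
      have hY : toG21 (PresentedGroup.of 1) = G21.Y := by simp [toG21]
      change toG21 ((PresentedGroup.of 0) ^ g.a.val * (PresentedGroup.of 1) ^ g.b.val) = g
      rw [map_mul, map_pow, map_pow, hX, hY, ← G21.eq_prod])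

end Pool.Agent.H890R2.Geo4
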