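import Pool.Agent.H890R2.Geo4.Grp

set_option autoImplicit false

/-! Deficiency, homology and indecomposability of the group of order 21. -/

namespace Pool.Agent.H890R2.Geo4

open CategoryTheory

/-- `G` has a presentation with `n` generators and `m` relators. -/
def HasPresentation (G : Type*) [Group G] (n m : ℕ) : Prop :=
  ∃ r : Fin m → FreeGroup (Fin n), Nonempty (PresentedGroup (Set.range r) ≃* G)

/-- `d` is the deficiency of `G`: the largest value of (number of generators) minus (number of
relators) over the finite presentations of `G`. -/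
def IsDeficiency (G : Type*) [Group G] (d : ℤ) : Prop :=
  IsGreatest {e : ℤ | ∃ n m : ℕ, HasPresentation G n m ∧ e = (n : ℤ) - m} d

/-- the homomorphism to `ℚ` with given values on the generators -/
noncomputable def evalQ {n : ℕ} (v : Fin n → ℚ) : FreeGroup (Fin n) →* Multiplicative ℚ :=
  FreeGroup.lift fun i => Multiplicative.ofAdd (v i)

lemma evalQ_add {n : ℕ} (v w : Fin n → ℚ) (g : FreeGroup (Fin n)) :
    evalQ (v + w) g = evalQ v g * evalQ w g := by
  have : evalQ (v + w) = evalQ v * evalQ w := by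
    apply FreeGroup.ext_hom
    intro i
    simp [evalQ]
  rw [this]; rfl

lemma evalQ_smul {n : ℕ} (c : ℚ) (v : Fin n → ℚ) (g : FreeGroup (Fin n)) :
    (evalQ (c • v) g).toAdd = c * (evalQ v g).toAdd := by
  let φ : Multiplicative ℚ →* Multiplicative ℚ :=
    AddMonoidHom.toMultiplicative (AddMonoidHom.mulLeft c)
  have : evalQ (c • v) = φ.comp (evalQ v) := by
    apply FreeGroup.ext_hom
    intro i
    simp [evalQ, φ]
  rw [this]; rfl

/-- evaluation on the relators is linear -/
noncomputable def evalL {n m : ℕ} (r : Fin m → FreeGroup (Fin n)) :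
    (Fin n → ℚ) →ₗ[ℚ] (Fin m → ℚ) where
  toFun v j := (evalQ v (r j)).toAdd
  map_add' v w := by
    funext j
    change (evalQ (v + w) (r j)).toAdd = (evalQ v (r j)).toAdd + (evalQ w (r j)).toAdd
    rw [evalQ_add]; rfl
  map_smul' c v := by
    funext j
    exact evalQ_smul c v (r j)

/-- a finite group has no presentation with more generators than relators -/
theorem le_of_finite {G : Type*} [Group G] [Finite G] {n m : ℕ} (h : HasPresentation G n m) :
    n ≤ m := by
  by_contra hlt
  push Not at hlt
  obtain ⟨r, ⟨e⟩⟩ := h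
  have hker : LinearMap.ker (evalL r) ≠ ⊥ := by
    apply LinearMap.ker_ne_bot_of_finrank_lt
    simpa using hlt
  obtain ⟨v, hv, hv0⟩ := (Submodule.ne_bot_iff _).1 hker
  apply hv0
  have hr : ∀ s ∈ Set.range r, FreeGroup.lift (fun i => Multiplicative.ofAdd (v i)) s = 1 := by
    rintro s ⟨j, rfl⟩
    have h1 : evalL r v j = 0 := by
      rw [LinearMap.mem_ker] at hv
      rw [hv]; rfl
    exact h1
  let φ : PresentedGroup (Set.range r) →* Multiplicative ℚ := PresentedGroup.toGroup hr
  funext i
  have hfin : Finite (PresentedGroup (Set.range r)) := Finite.of_equiv G e.symm.toEquiv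
  have ho := isOfFinOrder_of_finite (PresentedGroup.of (rels := Set.range r) i)
  obtain ⟨k, hk, hk1⟩ := isOfFinOrder_iff_pow_eq_one.1 ho
  have h2 := congrArg φ hk1
  rw [map_pow, map_one] at h2
  have h3 : φ (PresentedGroup.of i) = Multiplicative.ofAdd (v i) := by
    simp [φ]
  rw [h3] at h2
  have h4 : (k : ℚ) * v i = 0 := by
    have := congrArg Multiplicative.toAdd h2
    simpa using this
  have hk0 : (k : ℚ) ≠ 0 := by exact_mod_cast hk.ne'
  exact (mul_eq_zero.1 h4).resolve_left hk0

theorem isDeficiency_G21 : IsDeficiency G21 0 := by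
  constructor
  · exact ⟨2, 2, ⟨rels, ⟨presEquiv⟩⟩, by simp⟩
  · rintro e ⟨n, m, h, rfl⟩
    have := le_of_finite h
    have h2 : (n : ℤ) ≤ m := by exact_mod_cast this
    linarith

theorem not_freeProduct (α : Type*) [Nonempty α] (H : Type*) [Group H] :
    IsEmpty (G21 ≃* Monoid.Coprod (FreeGroup α) H) := by
  constructor
  intro e
  let φ : Monoid.Coprod (FreeGroup α) H →* Multiplicative ℤ :=
    (FreeGroup.lift fun _ => Multiplicative.ofAdd (1 : ℤ)).comp Monoid.Coprod.fst
  obtain ⟨a⟩ := ‹Nonempty α›
  let w : Monoid.Coprod (FreeGroup α) H := Monoid.Coprod.inl (FreeGroup.of a)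
  have h1 : φ w = Multiplicative.ofAdd 1 := by
    simp [φ, w]
  have h2 : w ^ 21 = 1 := by
    apply e.symm.injective
    rw [map_pow, map_one]
    have := pow_card_eq_one (x := e.symm w)
    rwa [G21.card_eq] at this
  have h3 := congrArg φ h2
  rw [map_pow, map_one, h1] at h3
  have h4 := congrArg Multiplicative.toAdd h3
  simp at h4

theorem H4_of_generates (C : Type) [Group C] [Finite C] (g : C)
    (hg : ∀ x, x ∈ Subgroup.zpowers g) :
    Limits.IsZero (groupHomology (Rep.trivial ℤ C ℤ) 4) := by
  classical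
  letI : CommGroup C :=
    { (inferInstance : Group C) with
      mul_comm := fun a b => by
        obtain ⟨k, rfl⟩ := Subgroup.mem_zpowers_iff.1 (hg a)
        obtain ⟨l, rfl⟩ := Subgroup.mem_zpowers_iff.1 (hg b)
        rw [← zpow_add, ← zpow_add, add_comm] }
  letI : Fintype C := Fintype.ofFinite _
  haveI h0 : NeZero 4 := ⟨by norm_num⟩
  exact isZero_cyclic_even C g hg 4 (by decide)

theorem H4_zpowers (g : G21) :
    Limits.IsZero (groupHomology (Rep.trivial ℤ (Subgroup.zpowers g) ℤ) 4) := by
  apply H4_of_generates (Subgroup.zpowers g) ⟨g, Subgroup.mem_zpowers g⟩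
  rintro ⟨x, hx⟩
  obtain ⟨k, rfl⟩ := Subgroup.mem_zpowers_iff.1 hx
  exact Subgroup.mem_zpowers_iff.2 ⟨k, by ext1; simp⟩

theorem index_X : (Subgroup.zpowers G21.X).index = 3 := by
  have h := (Subgroup.zpowers G21.X).card_mul_index
  rw [Nat.card_zpowers, G21.orderOf_X, Nat.card_eq_fintype_card, G21.card_eq] at h
  omega

theorem index_Y : (Subgroup.zpowers G21.Y).index = 7 := by
  have h := (Subgroup.zpowers G21.Y).card_mul_index
  rw [Nat.card_zpowers, G21.orderOf_Y, Nat.card_eq_fintype_card, G21.card_eq] at h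
  omega

/-- `H₄(G; ℤ) = 0` -/
theorem H4_G21 : Limits.IsZero (groupHomology (Rep.trivial ℤ G21 ℤ) 4) :=
  isZero_of_coprime ℤ (Subgroup.zpowers G21.X) (Subgroup.zpowers G21.Y)
    (by rw [index_X, index_Y]; decide) 4 (H4_zpowers _) (H4_zpowers _)

/-- the rational homology of a finite group vanishes in positive degrees -/
theorem rational_homology (G : Type) [Group G] [Finite G] (n : ℕ) [NeZero n] :
    Limits.IsZero (groupHomology (Rep.trivial ℚ G ℚ) n) := by
  classical
  letI : CommGroup (⊥ : Subgroup G) :=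
    { (inferInstance : Group (⊥ : Subgroup G)) with
      mul_comm := fun a b => Subsingleton.elim _ _ }
  letI : Fintype (⊥ : Subgroup G) := Fintype.ofFinite _
  have h1 := isZero_subsingleton ℚ (⊥ : Subgroup G) (by
    rw [Fintype.card_eq_one_iff]
    exact ⟨1, fun y => Subsingleton.elim _ _⟩) n
  have h2 := index_smul_eq_zero ℚ (⊥ : Subgroup G) n h1
  rw [Limits.IsZero.iff_id_eq_zero]
  have h3 : ((⊥ : Subgroup G).index : ℚ) • 𝟙 (groupHomology (Rep.trivial ℚ G ℚ) n) = 0 := by
    rw [Nat.cast_smul_eq_nsmul]; exact h2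
  have h4 : ((⊥ : Subgroup G).index : ℚ) ≠ 0 := by
    exact_mod_cast Subgroup.index_ne_zero_of_finite
  exact (smul_eq_zero.1 h3).resolve_left h4

theorem betti_zero (G : Type) [Group G] [Finite G] (n : ℕ) [NeZero n] :
    Module.finrank ℚ (groupHomology (Rep.trivial ℚ G ℚ) n) = 0 := by
  have h := rational_homology G n
  have : Subsingleton (groupHomology (Rep.trivial ℚ G ℚ) n) :=
    ModuleCat.subsingleton_of_isZero h
  exact Module.finrank_zero_of_subsingleton

end Pool.Agent.H890R2.Geo4
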