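import Pool.Agent.Helper158.PD.Top

set_option autoImplicit false

/-! Singular (co)homology of a quotient space `E/G` with local coefficients, computed on the
covering space `E`, and weak Poincaré duality. -/

namespace Pool.Agent.H890R2.Geo4

open Pool.Agent.Helper922.HB.Sc (Sing sface)
open Pool.Agent.Helper158.PD (pathSx exists_tri exists_sq exists_cst exists_path exists_faces
  eol_pathSx_one eol_pathSx_zero)

universe u

section defs

variable {G : Type} [Group G] (E : Type u) [TopologicalSpace E] [MulAction G E]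
  [ContinuousConstSMul G E] {B : Type} [AddCommGroup B] (ρ : G →* AddMonoid.End B)

/-- The translate of a singular simplex of `E` by a group element. -/
def tra {E : Type u} [TopologicalSpace E] [MulAction G E] [ContinuousConstSMul G E]
    (g : G) {n : ℕ} (σ : Sing E n) : Sing E n :=
  (⟨fun x => g • x, continuous_const_smul g⟩ : C(E, E)).comp σ

/-- The coboundary of a singular cochain with values in `B`. -/
noncomputable def cob (B : Type) [AddCommGroup B] (n : ℕ) :
    (Sing E n → B) →+ (Sing E (n + 1) → B) where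
  toFun f σ := ∑ i : Fin (n + 2), (-1 : ℤ) ^ (i : ℕ) • f (sface n i σ)
  map_zero' := by funext σ; simp
  map_add' f g := by funext σ; simp [Finset.sum_add_distrib]

/-- The boundary of a singular chain with coefficients in `B`. -/
noncomputable def bdr (B : Type) [AddCommGroup B] (n : ℕ) :
    (Sing E (n + 1) →₀ B) →+ (Sing E n →₀ B) :=
  Finsupp.liftAddHom fun σ =>
    ∑ i : Fin (n + 2), (-1 : ℤ) ^ (i : ℕ) • Finsupp.singleAddHom (sface n i σ)

/-- Cochains of `X = E/G` with coefficients in the local system `(B, ρ)`: equivariant cochains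
of `E`. -/
def eqCo (n : ℕ) : AddSubgroup (Sing E n → B) where
  carrier := {f | ∀ (g : G) (σ : Sing E n), f (tra g σ) = ρ g (f σ)}
  zero_mem' g σ := by simp
  add_mem' {f f'} hf hf' g σ := by simp [hf g σ, hf' g σ]
  neg_mem' {f} hf g σ := by simp [hf g σ]

/-- Cocycles of `X = E/G` with coefficients in the local system. -/
noncomputable def coCyc (n : ℕ) : AddSubgroup (Sing E n → B) := eqCo E ρ n ⊓ (cob E B n).ker

/-- Coboundaries of `X = E/G` with coefficients in the local system. -/
noncomputable def coBdr : (n : ℕ) → AddSubgroup (Sing E n → B)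
  | 0 => ⊥
  | n + 1 => (eqCo E ρ n).map (cob E B n)

/-- `Hⁿ(X; B)` for `X = E/G`. -/
def LocCoh (n : ℕ) : Type u := coCyc E ρ n ⧸ (coBdr E ρ n).addSubgroupOf (coCyc E ρ n)

noncomputable instance (n : ℕ) : AddCommGroup (LocCoh E ρ n) :=
  QuotientAddGroup.Quotient.addCommGroup _

/-- The relations `gσ ⊗ gb = σ ⊗ b`: the chains of `X = E/G` with coefficients in `(B, ρ)` are the
chains of `E` with coefficients in `B`, modulo this subgroup. -/
noncomputable def coinv (n : ℕ) : AddSubgroup (Sing E n →₀ B) :=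
  AddSubgroup.closure {c | ∃ (g : G) (σ : Sing E n) (b : B),
    c = Finsupp.single (tra g σ) (ρ g b) - Finsupp.single σ b}

/-- Cycles of `X = E/G`, as chains of `E`. -/
noncomputable def cyc : (n : ℕ) → AddSubgroup (Sing E n →₀ B)
  | 0 => ⊤
  | n + 1 => (coinv E ρ n).comap (bdr E B n)

/-- Boundaries of `X = E/G`, as chains of `E`. -/
noncomputable def bdy (n : ℕ) : AddSubgroup (Sing E n →₀ B) := (bdr E B n).range ⊔ coinv E ρ n

/-- `Hₙ(X; B)` for `X = E/G`. -/
def LocHom (n : ℕ) : Type u := cyc E ρ n ⧸ (bdy E ρ n).addSubgroupOf (cyc E ρ n)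

noncomputable instance (n : ℕ) : AddCommGroup (LocHom E ρ n) :=
  QuotientAddGroup.Quotient.addCommGroup _

/-- The local system `B` twisted by a sign character `w`. -/
def twist (w : G →* ℤˣ) : G →* AddMonoid.End B where
  toFun g := ((w g : ℤˣ) : ℤ) • ρ g
  map_one' := by simp
  map_mul' g h := by
    ext b
    simp [mul_smul]

/-- `X = E/G` has the duality isomorphisms of a Poincaré complex of formal dimension `3`:
for some orientation character `w`, `Hⁱ(X; B)` is isomorphic to `Hⱼ(X; B^w)` for `i + j = 3` and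
every local coefficient system `B`. -/
def WeakDuality3 (G : Type) [Group G] (E : Type u) [TopologicalSpace E] [MulAction G E]
    [ContinuousConstSMul G E] : Prop :=
  ∃ w : G →* ℤˣ, ∀ (B : Type) [AddCommGroup B] (ρ : G →* AddMonoid.End B) (i j : ℕ),
    i + j = 3 → Nonempty (LocCoh E ρ i ≃+ LocHom E (twist ρ w) j)

end defs

section exact

variable {E : Type u} [TopologicalSpace E] {B : Type} [AddCommGroup B]

/-- constant simplex -/
def pt (x : E) : Sing E 0 := ContinuousMap.const _ x

theorem pt_eq (σ : Sing E 0) : σ = pt (σ (stdSimplex.vertex (S := ℝ) (0 : Fin 1))) := by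
  refine ContinuousMap.ext fun t => ?_
  change σ t = σ _
  congr 1
  apply Subtype.ext
  funext i
  have h := t.2.2
  rw [Fin.sum_univ_one] at h
  fin_cases i
  change t.1 0 = (Pi.single (0 : Fin 1) (1 : ℝ) : Fin 1 → ℝ) 0
  rw [Pi.single_eq_same]
  exact h

theorem face_zero {x y : E} (γ : Path x y) : sface 0 0 (pathSx γ) = pt y := by
  rw [pt_eq (sface 0 0 (pathSx γ))]
  congr 1
  show pathSx γ (stdSimplex.map _ (stdSimplex.vertex (S := ℝ) (0 : Fin 1))) = y
  rw [stdSimplex.map_vertex]
  exact eol_pathSx_one γ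

theorem face_one {x y : E} (γ : Path x y) : sface 0 1 (pathSx γ) = pt x := by
  rw [pt_eq (sface 0 1 (pathSx γ))]
  congr 1
  show pathSx γ (stdSimplex.map _ (stdSimplex.vertex (S := ℝ) (0 : Fin 1))) = x
  rw [stdSimplex.map_vertex]
  exact eol_pathSx_zero γ

theorem cob_zero_apply (v : Sing E 0 → B) {x y : E} (γ : Path x y) :
    cob E B 0 v (pathSx γ) = v (pt y) - v (pt x) := by
  change ∑ i : Fin 2, (-1 : ℤ) ^ (i : ℕ) • v (sface 0 i (pathSx γ)) = _
  rw [Fin.sum_univ_two, face_zero, face_one]
  simp [sub_eq_add_neg]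

theorem cob_one_apply (u : Sing E 1 → B) (τ : Sing E 2) :
    cob E B 1 u τ = u (sface 1 0 τ) - u (sface 1 1 τ) + u (sface 1 2 τ) := by
  change ∑ i : Fin 3, (-1 : ℤ) ^ (i : ℕ) • u (sface 1 i τ) = _
  rw [Fin.sum_univ_three]
  simp [sub_eq_add_neg]

variable {u : Sing E 1 → B}

theorem co_trans (hu : cob E B 1 u = 0) {x y z : E} (γ : Path x y) (η : Path y z) :
    u (pathSx (γ.trans η)) = u (pathSx γ) + u (pathSx η) := by
  obtain ⟨τ, e1, e2, e3⟩ := exists_tri γ η
  have h := congrFun hu τ
  rw [cob_one_apply, e1, e2, e3] at h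
  have h' : u (pathSx η) - u (pathSx (γ.trans η)) + u (pathSx γ) = 0 := h
  rw [← sub_eq_zero, ← neg_eq_zero, ← h']
  abel

theorem co_refl (hu : cob E B 1 u = 0) (x : E) : u (pathSx (Path.refl x)) = 0 := by
  have h := co_trans hu (Path.refl x) (Path.refl x)
  rw [Path.refl_trans_refl] at h
  exact left_eq_add.1 h

theorem co_homotopic (hu : cob E B 1 u = 0) {x y : E} {γ γ' : Path x y}
    (h : γ.Homotopic γ') : u (pathSx γ) = u (pathSx γ') := by
  obtain ⟨τ₁, τ₂, h12, h10, h22, h20, he⟩ := exists_sq h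
  have e1 : cob E B 1 u τ₁ = 0 := congrFun hu τ₁
  have e2 : cob E B 1 u τ₂ = 0 := congrFun hu τ₂
  rw [cob_one_apply, h12, h10, co_refl hu] at e1
  rw [cob_one_apply, h22, h20, co_refl hu, ← he] at e2
  have e3 : u (pathSx γ) = u (sface 1 1 τ₁) := by
    rw [← sub_eq_zero, ← e1]; abel
  have e4 : u (pathSx γ') = u (sface 1 1 τ₁) := by
    rw [← sub_eq_zero, ← e2]; abel
  rw [e3, e4]

/-- On a simply connected space every singular `1`-cocycle is a coboundary. -/
theorem exact_one [SimplyConnectedSpace E] (hu : cob E B 1 u = 0) :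
    ∃ v : Sing E 0 → B, cob E B 0 v = u := by
  obtain ⟨e⟩ : Nonempty E := inferInstance
  let v : Sing E 0 → B := fun σ =>
    u (pathSx (PathConnectedSpace.somePath e (σ (stdSimplex.vertex (S := ℝ) (0 : Fin 1)))))
  refine ⟨v, ?_⟩
  funext σ
  obtain ⟨x, y, γ, rfl⟩ := exists_path σ
  rw [cob_zero_apply]
  have hv : ∀ z : E, v (pt z) = u (pathSx (PathConnectedSpace.somePath e z)) := fun z => rfl
  rw [hv, hv]
  have h1 := co_trans hu (PathConnectedSpace.somePath e x) γ
  have h2 : u (pathSx ((PathConnectedSpace.somePath e x).trans γ)) =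
      u (pathSx (PathConnectedSpace.somePath e y)) :=
    co_homotopic hu (SimplyConnectedSpace.paths_homotopic _ _)
  rw [← h2, h1]
  abel

end exact

end Pool.Agent.H890R2.Geo4
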