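import Pool.Agent.H890R2.Geo4.Loc
import Pool.Agent.H890R2.Geo4.Grp2

set_option autoImplicit false

/-! The group of order 21 is not the group of a space with three-dimensional duality. -/

namespace Pool.Agent.H890R2.Geo4

open Pool.Agent.Helper922.HB.Sc (Sing sface)
open Pool.Agent.Helper158.PD (pathSx exists_tri exists_sq exists_cst exists_path exists_faces
  eol_pathSx_one eol_pathSx_zero)

universe u

/-! ### coefficient modules -/

/-- powers of `30` in `ZMod 49` -/
def u49 (b : ZMod 3) : ZMod 49 := 30 ^ b.val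

lemma u49_add : ∀ b b' : ZMod 3, u49 (b + b') = u49 b * u49 b' := by decide
lemma u49_zero : u49 0 = 1 := by decide

/-- the action on `ℤ/49` -/
def rho49 : G21 →* AddMonoid.End (ZMod 49) where
  toFun g := AddMonoidHom.mulLeft (u49 g.b)
  map_one' := AddMonoidHom.ext fun x => by
    change u49 0 * x = x
    rw [u49_zero, one_mul]
  map_mul' g h := AddMonoidHom.ext fun x => by
    change u49 (g.b + h.b) * x = u49 g.b * (u49 h.b * x)
    rw [u49_add, mul_assoc]

/-- the action on `ℤ/7` -/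
def rho7 : G21 →* AddMonoid.End (ZMod 7) where
  toFun g := AddMonoidHom.mulLeft (G21.tw g.b)
  map_one' := AddMonoidHom.ext fun x => by
    change G21.tw 0 * x = x
    rw [G21.tw_zero, one_mul]
  map_mul' g h := AddMonoidHom.ext fun x => by
    change G21.tw (g.b + h.b) * x = G21.tw g.b * (G21.tw h.b * x)
    rw [G21.tw_add, mul_assoc]

lemma rho7_apply (g : G21) (c : ZMod 7) : rho7 g c = G21.tw g.b * c := rfl
lemma rho49_apply (g : G21) (c : ZMod 49) : rho49 g c = u49 g.b * c := rfl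

/-- the inclusion of `ℤ/7` in `ℤ/49` -/
def iota : ZMod 7 →+ ZMod 49 where
  toFun c := 7 * (c.val : ZMod 49)
  map_zero' := by decide
  map_add' := by decide

lemma iota_inj : ∀ c d : ZMod 7, iota c = iota d → c = d := by decide
lemma iota_tw : ∀ (b : ZMod 3) (c : ZMod 7), iota (G21.tw b * c) = u49 b * iota c := by decide

/-- the projection -/
def proj : ZMod 49 →+* ZMod 7 := ZMod.castHom (by decide : 7 ∣ 49) (ZMod 7)

lemma proj_u49 : ∀ b : ZMod 3, proj (u49 b) = G21.tw b := by decide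
lemma proj_val : ∀ c : ZMod 7, proj (c.val : ZMod 49) = c := by decide
lemma proj_zero : ∀ m : ZMod 49, proj m = 0 → ∃ c, iota c = m := by decide
lemma proj_iota : ∀ c : ZMod 7, proj (iota c) = 0 := by decide
lemma tw_X : G21.tw G21.X.b = 1 := by decide
lemma tw_Y : G21.tw G21.Y.b = 2 := by decide
lemma tw_1 : G21.tw (1 : G21).b = 1 := by decide
lemma three_mul_zmod : ∀ t : ZMod 7, 3 * t = 0 → t = 0 := by decide
lemma seven_proj : ∀ m : ZMod 49, 7 * m = 0 → proj m = 0 := by decide

theorem exists_kappa {G : Type*} {E : Type*} [Group G] [MulAction G E]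
    (hfree : ∀ (g : G) (x : E), g • x = x → g = 1) :
    ∃ κ : E → G, ∀ (g : G) (x : E), κ (g • x) = g * κ x := by
  classical
  let r : E → E := fun x => (Quotient.mk (MulAction.orbitRel G E) x).out
  have hr : ∀ x, ∃ g : G, g • r x = x := by
    intro x
    have h : (MulAction.orbitRel G E) (r x) x := Quotient.mk_out (s := MulAction.orbitRel G E) x
    rw [MulAction.orbitRel_apply] at h
    obtain ⟨g, hg⟩ := h
    exact ⟨g⁻¹, by rw [← hg, inv_smul_smul]⟩
  choose κ hκ using hr
  refine ⟨κ, fun g x => ?_⟩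
  have h1 : r (g • x) = r x := by
    change (Quotient.mk (MulAction.orbitRel G E) (g • x)).out =
      (Quotient.mk (MulAction.orbitRel G E) x).out
    congr 1
    apply Quotient.sound
    change (MulAction.orbitRel G E) (g • x) x
    rw [MulAction.orbitRel_apply]
    exact ⟨g, rfl⟩
  have h2 := hκ (g • x)
  rw [h1] at h2
  have h3 : (g * κ x) • r x = g • x := by rw [mul_smul, hκ]
  have h4 : ((g * κ x)⁻¹ * κ (g • x)) • r x = r x := by
    rw [mul_smul, h2, ← h3, inv_smul_smul]
  have h5 := hfree _ _ h4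
  exact (inv_mul_eq_one.1 h5).symm

theorem cob_ring {E : Type u} [TopologicalSpace E] (R : Type) [CommRing R] (n : ℕ)
    (f : Sing E n → R) :
    cob E R n f = Pool.Agent.Helper922.HB.Sc.altd R (sface (X := E)) n f := by
  funext σ
  change ∑ i : Fin (n + 2), (-1 : ℤ) ^ (i : ℕ) • f (sface n i σ) =
    ∑ i : Fin (n + 2), (-1 : R) ^ (i : ℕ) * f (sface n i σ)
  refine Finset.sum_congr rfl fun i _ => ?_
  rw [zsmul_eq_mul]
  push_cast
  rfl

theorem cob_cob {E : Type u} [TopologicalSpace E] (R : Type) [CommRing R] (n : ℕ)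
    (f : Sing E n → R) : cob E R (n + 1) (cob E R n f) = 0 := by
  rw [cob_ring, cob_ring]
  exact Pool.Agent.Helper922.HB.Sc.altd_altd _
    (fun n i j σ h => Pool.Agent.Helper922.HB.Sc.sface_sface n i j σ h) n f

theorem cob_map {E : Type u} [TopologicalSpace E] {A B : Type} [AddCommGroup A] [AddCommGroup B]
    (φ : A →+ B) (n : ℕ) (f : Sing E n → A) (σ : Sing E (n + 1)) :
    cob E B n (fun τ => φ (f τ)) σ = φ (cob E A n f σ) := by
  change ∑ i : Fin (n + 2), (-1 : ℤ) ^ (i : ℕ) • φ (f (sface n i σ)) =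
    φ (∑ i : Fin (n + 2), (-1 : ℤ) ^ (i : ℕ) • f (sface n i σ))
  rw [map_sum]
  refine Finset.sum_congr rfl fun i _ => ?_
  rw [map_zsmul]

section act

variable {G : Type} [Group G] {E : Type u} [TopologicalSpace E] [MulAction G E]
  [ContinuousConstSMul G E]

theorem sface_tra (g : G) (n : ℕ) (i : Fin (n + 2)) (σ : Sing E (n + 1)) :
    sface n i (tra g σ) = tra g (sface n i σ) := rfl

theorem tra_pt (g : G) (x : E) : tra g (pt x) = pt (g • x) := rfl

theorem tra_pathSx (g : G) {x y : E} (γ : Path x y) :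
    ∃ γ' : Path (g • x) (g • y), tra g (pathSx γ) = pathSx γ' :=
  ⟨γ.map (continuous_const_smul g), rfl⟩

theorem cob_tra {B : Type} [AddCommGroup B] (g : G) (n : ℕ) (f : Sing E n → B)
    (σ : Sing E (n + 1)) : cob E B n f (tra g σ) = cob E B n (fun τ => f (tra g τ)) σ := rfl

theorem cob_mem {B : Type} [AddCommGroup B] (ρ : G →* AddMonoid.End B) (n : ℕ)
    {f : Sing E n → B} (hf : f ∈ eqCo E ρ n) : cob E B n f ∈ eqCo E ρ (n + 1) := by
  intro g σ
  rw [cob_tra]
  have : (fun τ => f (tra g τ)) = fun τ => ρ g (f τ) := funext fun τ => hf g τ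
  rw [this]
  exact cob_map (ρ g) n f σ

/-- the vertices of a singular simplex -/
def vx {n : ℕ} (i : Fin (n + 1)) (σ : Sing E n) : E := σ (stdSimplex.vertex (S := ℝ) i)

theorem vx_tra (g : G) {n : ℕ} (i : Fin (n + 1)) (σ : Sing E n) :
    vx i (tra g σ) = g • vx i σ := rfl

theorem vx_face {n : ℕ} (j : Fin (n + 2)) (i : Fin (n + 1)) (σ : Sing E (n + 1)) :
    vx i (sface n j σ) = vx (j.succAbove i) σ := by
  change σ (stdSimplex.map _ (stdSimplex.vertex (S := ℝ) i)) = σ _
  rw [stdSimplex.map_vertex]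

end act

section main

variable {E : Type u} [TopologicalSpace E] [MulAction G21 E] [ContinuousConstSMul G21 E]

theorem tw_inv_mul (g h : G21) : G21.tw g.b * (g⁻¹ * h).a = h.a - g.a := by
  have : (g * (g⁻¹ * h)).a = h.a := by rw [mul_inv_cancel_left]
  rw [G21.mul_a] at this
  rw [← this]; ring

/-- `H²(E/G; B) ≠ 0` for the module `B = ℤ/7` -/
theorem coh2_ne [SimplyConnectedSpace E] (hfree : ∀ (g : G21) (x : E), g • x = x → g = 1) :
    ∃ F ∈ coCyc E rho7 2, F ∉ coBdr E rho7 2 := by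
  obtain ⟨κ, hκ⟩ := exists_kappa hfree
  let u : Sing E 1 → ZMod 49 := fun σ =>
    u49 (κ (vx 0 σ)).b * (((κ (vx 0 σ))⁻¹ * κ (vx 1 σ)).a.val : ZMod 49)
  have hu : ∀ (g : G21) (σ : Sing E 1), u (tra g σ) = u49 g.b * u σ := by
    intro g σ
    change u49 (κ (vx 0 (tra g σ))).b * (((κ (vx 0 (tra g σ)))⁻¹ * κ (vx 1 (tra g σ))).a.val :
      ZMod 49) = u49 g.b * (u49 (κ (vx 0 σ)).b * (((κ (vx 0 σ))⁻¹ * κ (vx 1 σ)).a.val : ZMod 49))
    rw [vx_tra, vx_tra, hκ, hκ, G21.mul_b, u49_add]
    have : (g * κ (vx 0 σ))⁻¹ * (g * κ (vx 1 σ)) = (κ (vx 0 σ))⁻¹ * κ (vx 1 σ) := by group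
    rw [this, mul_assoc]
  have hpu : ∀ σ : Sing E 1, proj (u σ) = (κ (vx 1 σ)).a - (κ (vx 0 σ)).a := by
    intro σ
    change proj (u49 (κ (vx 0 σ)).b * (((κ (vx 0 σ))⁻¹ * κ (vx 1 σ)).a.val : ZMod 49)) = _
    rw [map_mul, proj_u49, proj_val, tw_inv_mul]
  have hF : ∀ τ : Sing E 2, ∃ c : ZMod 7, iota c = cob E (ZMod 49) 1 u τ := by
    intro τ
    apply proj_zero
    rw [cob_one_apply, map_add, map_sub, hpu, hpu, hpu]
    simp only [vx_face]
    have a1 : (0 : Fin 3).succAbove (1 : Fin 2) = 2 := by decide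
    have a2 : (0 : Fin 3).succAbove (0 : Fin 2) = 1 := by decide
    have a3 : (1 : Fin 3).succAbove (1 : Fin 2) = 2 := by decide
    have a4 : (1 : Fin 3).succAbove (0 : Fin 2) = 0 := by decide
    have a5 : (2 : Fin 3).succAbove (1 : Fin 2) = 1 := by decide
    have a6 : (2 : Fin 3).succAbove (0 : Fin 2) = 0 := by decide
    rw [a1, a2, a3, a4, a5, a6]
    ring
  choose F hF using hF
  have hiF : (fun τ => iota (F τ)) = cob E (ZMod 49) 1 u := funext hF
  have heq : F ∈ eqCo E rho7 2 := by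
    intro g τ
    apply iota_inj
    rw [hF, rho7_apply, iota_tw, hF]
    exact cob_mem rho49 1 (f := u) hu g τ
  refine ⟨F, ⟨heq, ?_⟩, ?_⟩
  · change cob E (ZMod 7) 2 F = 0
    funext σ
    apply iota_inj
    rw [← cob_map, hiF, cob_cob]
    rfl
  · rintro ⟨h, hh, hhF⟩
    let v1 : Sing E 1 → ZMod 49 := u - fun σ => iota (h σ)
    have hv1 : cob E (ZMod 49) 1 v1 = 0 := by
      change cob E (ZMod 49) 1 (u - fun σ => iota (h σ)) = 0
      rw [map_sub]
      funext τ
      rw [Pi.sub_apply, cob_map, hhF, hF, sub_self]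
      rfl
    obtain ⟨v, hv⟩ := exact_one hv1
    have hv1e : ∀ (g : G21) (σ : Sing E 1), v1 (tra g σ) = u49 g.b * v1 σ := by
      intro g σ
      change u (tra g σ) - iota (h (tra g σ)) = u49 g.b * (u σ - iota (h σ))
      have := hh g σ
      rw [hu, this, rho7_apply, iota_tw, mul_sub]
    -- the translation by `X`
    obtain ⟨e⟩ : Nonempty E := inferInstance
    obtain ⟨m, hm⟩ : ∃ m : ZMod 49, m = v (pt (G21.X • e)) - v (pt e) := ⟨_, rfl⟩
    have hX : u49 G21.X.b = 1 := by decide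
    have hconst : ∀ x : E, v (pt (G21.X • x)) - v (pt x) = m := by
      intro x
      let γ : Path e x := PathConnectedSpace.somePath e x
      obtain ⟨γ', hγ'⟩ := tra_pathSx G21.X γ
      have h1 := hv1e G21.X (pathSx γ)
      rw [hX, one_mul, hγ', ← hv, cob_zero_apply, cob_zero_apply] at h1
      rw [hm]
      linear_combination h1
    have hpow : ∀ k : ℕ, v (pt ((G21.X ^ k) • e)) - v (pt e) = k * m := by
      intro k
      induction k with
      | zero => simp
      | succ k ih =>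
        rw [pow_succ', mul_smul]
        have := hconst ((G21.X ^ k) • e)
        push_cast
        linear_combination this + ih
    have h7 : 7 * m = 0 := by
      have := hpow 7
      rw [G21.X_pow_seven, one_smul, sub_self] at this
      rw [this]; norm_num
    have hp := seven_proj m h7
    -- but `m` is one modulo seven
    let γ : Path e (G21.X • e) := PathConnectedSpace.somePath _ _
    have h2 : v1 (pathSx γ) = m := by
      rw [← hv, cob_zero_apply, hm]
    have h3 : proj (v1 (pathSx γ)) = 1 := by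
      change proj (u (pathSx γ) - iota (h (pathSx γ))) = 1
      rw [map_sub, proj_iota, hpu, sub_zero]
      have h4 : vx 1 (pathSx γ) = G21.X • e := eol_pathSx_one γ
      have h5 : vx 0 (pathSx γ) = e := eol_pathSx_zero γ
      rw [h4, h5, hκ, G21.mul_a]
      have h6 : G21.X.a = 1 := rfl
      have h7 : G21.tw G21.X.b = 1 := by decide
      rw [h6, h7]
      ring
    rw [h2, hp] at h3
    exact absurd h3 (by decide)

/-- `H₁(E/G; B) = 0` for the module `B = ℤ/7` -/
theorem hom1_zero [SimplyConnectedSpace E] :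
    ∀ c ∈ cyc E rho7 1, c ∈ bdy E rho7 1 := by
  intro c hc
  by_contra hcN
  have : Fact (Nat.Prime 7) := ⟨by norm_num⟩
  let N' : Submodule (ZMod 7) (Sing E 1 →₀ ZMod 7) :=
    AddSubgroup.toZModSubmodule 7 (bdy E rho7 1)
  have hcN' : c ∉ N' := hcN
  obtain ⟨f, hfc, hf⟩ := Submodule.exists_le_ker_of_notMem hcN'
  have hf' : ∀ d ∈ bdy E rho7 1, f d = 0 := fun d hd => LinearMap.mem_ker.1 (hf hd)
  let u : Sing E 1 → ZMod 7 := fun σ => f (Finsupp.single σ 1)
  have hfs : ∀ (σ : Sing E 1) (b : ZMod 7), f (Finsupp.single σ b) = b * u σ := by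
    intro σ b
    have : Finsupp.single σ b = b • Finsupp.single σ (1 : ZMod 7) := by
      rw [Finsupp.smul_single, smul_eq_mul, mul_one]
    rw [this, map_smul, smul_eq_mul]
  have hu : ∀ (g : G21) (σ : Sing E 1), G21.tw g.b * u (tra g σ) = u σ := by
    intro g σ
    have h1 : Finsupp.single (tra g σ) (rho7 g 1) - Finsupp.single σ 1 ∈ bdy E rho7 1 :=
      (le_sup_right : coinv E rho7 1 ≤ bdy E rho7 1)
        (AddSubgroup.subset_closure ⟨g, σ, 1, rfl⟩)
    have h2 := hf' _ h1
    rw [map_sub, hfs, hfs, rho7_apply, mul_one, one_mul, sub_eq_zero] at h2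
    exact h2
  have hcu : cob E (ZMod 7) 1 u = 0 := by
    funext τ
    have h1 : bdr E (ZMod 7) 1 (Finsupp.single τ 1) ∈ bdy E rho7 1 :=
      (le_sup_left : (bdr E (ZMod 7) 1).range ≤ bdy E rho7 1) ⟨_, rfl⟩
    have h2 := hf' _ h1
    refine Eq.trans ?_ h2
    change ∑ i : Fin 3, (-1 : ℤ) ^ (i : ℕ) • u (sface 1 i τ) =
      f (bdr E (ZMod 7) 1 (Finsupp.single τ 1))
    unfold bdr
    rw [Finsupp.liftAddHom_apply_single, AddMonoidHom.finsetSum_apply, map_sum]
    refine Finset.sum_congr rfl fun i _ => ?_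
    rw [AddMonoidHom.smul_apply, map_zsmul]
    rfl
  obtain ⟨v, hv⟩ := exact_one hcu
  obtain ⟨e⟩ : Nonempty E := inferInstance
  obtain ⟨m, hm⟩ : ∃ m : G21 → ZMod 7, ∀ g, m g = G21.tw g.b * v (pt (g • e)) - v (pt e) :=
    ⟨_, fun _ => rfl⟩
  have hconst : ∀ (g : G21) (x : E), G21.tw g.b * v (pt (g • x)) - v (pt x) = m g := by
    intro g x
    let γ : Path e x := PathConnectedSpace.somePath e x
    obtain ⟨γ', hγ'⟩ := tra_pathSx g γ
    have h1 := hu g (pathSx γ)
    rw [hγ', ← hv, cob_zero_apply, cob_zero_apply] at h1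
    rw [hm]
    linear_combination h1
  have hmul : ∀ g h : G21, m (g * h) = m h + G21.tw h.b * m g := by
    intro g h
    rw [← hconst (g * h) e, ← hconst h e, ← hconst g (h • e), mul_smul, G21.mul_b, G21.tw_add]
    ring
  have hYX : m (G21.Y * G21.X) = m (G21.X ^ 2 * G21.Y) := by
    congr 1
  have hX0 : m G21.X = 0 := by
    rw [hmul, hmul, pow_two, hmul] at hYX
    rw [tw_X, tw_Y] at hYX
    have h3 : (3 : ZMod 7) * m G21.X = 0 := by linear_combination -hYX
    exact three_mul_zmod _ h3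
  -- correct `v` by a constant
  let s : ZMod 7 := - m G21.Y
  let v' : Sing E 0 → ZMod 7 := fun σ => v σ + s
  let m' : G21 → ZMod 7 := fun g => m g + (G21.tw g.b - 1) * s
  have hmul' : ∀ g h : G21, m' (g * h) = m' h + G21.tw h.b * m' g := by
    intro g h
    change m (g * h) + (G21.tw (g * h).b - 1) * s =
      (m h + (G21.tw h.b - 1) * s) + G21.tw h.b * (m g + (G21.tw g.b - 1) * s)
    rw [hmul, G21.mul_b, G21.tw_add]
    ring
  have hmX : m' G21.X = 0 := by
    change m G21.X + (G21.tw G21.X.b - 1) * s = 0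
    rw [hX0, tw_X]; ring
  have hmY : m' G21.Y = 0 := by
    change m G21.Y + (G21.tw G21.Y.b - 1) * (- m G21.Y) = 0
    rw [tw_Y]; ring
  have hm1 : m' 1 = 0 := by
    have h1 := hmul' 1 1
    rw [one_mul, tw_1, one_mul] at h1
    exact left_eq_add.1 h1
  have hpow : ∀ g : G21, m' g = 0 → ∀ k : ℕ, m' (g ^ k) = 0 := by
    intro g hg k
    induction k with
    | zero => rw [pow_zero]; exact hm1
    | succ k ih => rw [pow_succ, hmul', hg, ih]; ring
  have hall : ∀ g : G21, m' g = 0 := by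
    intro g
    rw [G21.eq_prod g, hmul', hpow _ hmX, hpow _ hmY]
    ring
  have hv' : ∀ (g : G21) (σ : Sing E 0), G21.tw g.b * v' (tra g σ) = v' σ := by
    intro g σ
    rw [pt_eq σ, tra_pt]
    set x := σ (stdSimplex.vertex (S := ℝ) (0 : Fin 1))
    change G21.tw g.b * (v (pt (g • x)) + s) = v (pt x) + s
    have h1 : m g + (G21.tw g.b - 1) * s = 0 := hall g
    rw [← hconst g x] at h1
    linear_combination h1
  let V : (Sing E 0 →₀ ZMod 7) →+ ZMod 7 :=
    Finsupp.liftAddHom fun σ => AddMonoidHom.mulRight (v' σ)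
  have hVs : ∀ (σ : Sing E 0) (b : ZMod 7), V (Finsupp.single σ b) = b * v' σ := by
    intro σ b
    change Finsupp.liftAddHom _ (Finsupp.single σ b) = _
    rw [Finsupp.liftAddHom_apply_single]
    rfl
  have hVR : ∀ d ∈ coinv E rho7 0, V d = 0 := by
    intro d hd
    have : coinv E rho7 0 ≤ V.ker := by
      unfold coinv
      rw [AddSubgroup.closure_le]
      rintro _ ⟨g, σ, b, rfl⟩
      change V _ = 0
      rw [map_sub, hVs, hVs, rho7_apply, ← hv' g σ]
      ring
    exact this hd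
  have hfV : f.toAddMonoidHom = V.comp (bdr E (ZMod 7) 0) := by
    apply Finsupp.addHom_ext
    intro σ b
    change f (Finsupp.single σ b) = V (bdr E (ZMod 7) 0 (Finsupp.single σ b))
    unfold bdr
    rw [hfs, Finsupp.liftAddHom_apply_single, AddMonoidHom.finsetSum_apply, map_sum, ← hv]
    change b * ∑ i : Fin 2, (-1 : ℤ) ^ (i : ℕ) • v (sface 0 i σ) = _
    rw [Fin.sum_univ_two, Fin.sum_univ_two]
    simp only [AddMonoidHom.smul_apply, Finsupp.singleAddHom_apply, map_zsmul, hVs]
    change _ = (-1 : ℤ) ^ ((0 : Fin 2) : ℕ) • (b * (v (sface 0 0 σ) + s)) +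
      (-1 : ℤ) ^ ((1 : Fin 2) : ℕ) • (b * (v (sface 0 1 σ) + s))
    simp
    ring
  apply hfc
  have h1 : f c = V (bdr E (ZMod 7) 0 c) := DFunLike.congr_fun hfV c
  rw [h1]
  exact hVR _ hc

theorem sign_trivial (w : G21 →* ℤˣ) : w = 1 := by
  ext1 g
  have h1 : (w g) ^ 21 = 1 := by
    rw [← map_pow]
    have := pow_card_eq_one (x := g)
    rw [G21.card_eq] at this
    rw [this, map_one]
  rcases Int.units_eq_one_or (w g) with h | h
  · exact h
  · rw [h] at h1
    exact absurd h1 (by decide)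

theorem twist_eq (w : G21 →* ℤˣ) {B : Type} [AddCommGroup B] (ρ : G21 →* AddMonoid.End B) :
    twist ρ w = ρ := by
  rw [sign_trivial w]
  ext g b
  simp [twist]

/-- `H²(E/G; B)` and `H₁(E/G; B^w)` are not isomorphic for `B = ℤ/7`. -/
theorem not_iso [SimplyConnectedSpace E]
    (hfree : ∀ (g : G21) (x : E), g • x = x → g = 1) (w : G21 →* ℤˣ) :
    IsEmpty (LocCoh E rho7 2 ≃+ LocHom E (twist rho7 w) 1) := by
  constructor
  intro φ
  rw [twist_eq] at φ
  obtain ⟨F, hF, hF'⟩ := coh2_ne hfree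
  have hsub : Subsingleton (LocHom E rho7 1) := by
    refine ⟨fun a b => ?_⟩
    obtain ⟨a, rfl⟩ := QuotientAddGroup.mk_surjective a
    obtain ⟨b, rfl⟩ := QuotientAddGroup.mk_surjective b
    exact QuotientAddGroup.eq.2 (hom1_zero _ (-a + b).2)
  have h0 : Subsingleton (LocCoh E rho7 2) := φ.injective.subsingleton
  let z : coCyc E rho7 2 ⧸ (coBdr E rho7 2).addSubgroupOf (coCyc E rho7 2) :=
    QuotientAddGroup.mk (⟨F, hF⟩ : coCyc E rho7 2)
  have h2 : Subsingleton (coCyc E rho7 2 ⧸ (coBdr E rho7 2).addSubgroupOf (coCyc E rho7 2)) := h0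
  have h1 : z = 0 := Subsingleton.elim _ _
  exact hF' ((QuotientAddGroup.eq_zero_iff (⟨F, hF⟩ : coCyc E rho7 2)).1 h1)

/-- The group of order 21 does not act freely on a simply connected space `E` such that `E/G` has
the duality isomorphisms of a Poincaré complex of formal dimension three. -/
theorem not_weakDuality3 [SimplyConnectedSpace E]
    (hfree : ∀ (g : G21) (x : E), g • x = x → g = 1) : ¬ WeakDuality3 G21 E := by
  rintro ⟨w, hw⟩
  obtain ⟨φ⟩ := hw (ZMod 7) rho7 2 1 rfl
  exact (not_iso hfree w).false φ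

end main

end Pool.Agent.H890R2.Geo4
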