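import Mathlib

set_option autoImplicit false

/-! Transfer in group homology with integer coefficients. -/

namespace Pool.Agent.H890R2.Geo4

open CategoryTheory Representation TensorProduct

variable {G : Type} [Group G]

/-- constant functions -/
noncomputable def toCoind (k : Type) [CommRing k] (S : Subgroup G) :
    Rep.trivial k G k ⟶ Rep.coind S.subtype (Rep.trivial k S k) :=
  Rep.ofHom ⟨{ toFun := fun z => ⟨fun _ => z, fun s g => by simp⟩
               map_add' := fun _ _ => rfl
               map_smul' := fun _ _ => rfl }, fun g => by ext; rfl⟩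

/-- augmentation -/
noncomputable def fromInd (k : Type) [CommRing k] (S : Subgroup G) :
    Rep.ind S.subtype (Rep.trivial k S k) ⟶ Rep.trivial k G k :=
  (Rep.indResHomEquiv S.subtype (Rep.trivial k S k) (Rep.trivial k G k)).symm
    (Rep.ofHom ⟨LinearMap.id, fun g => by ext; simp⟩)

open Classical in
attribute [local instance] Subgroup.fintypeQuotientOfFiniteIndex in
theorem comp_eq (k : Type) [CommRing k] (S : Subgroup G) [S.FiniteIndex] :
    toCoind k S ≫ (Rep.indCoindIso (Rep.trivial k S k)).inv ≫ fromInd k S =
      S.index • 𝟙 (Rep.trivial k G k) := by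
  ext
  have h1 : ∀ f : Rep.coind S.subtype (Rep.trivial k S k),
      (Rep.indCoindIso (Rep.trivial k S k)).inv.hom f =
        (Rep.trivial k S k).coindToInd f := fun f => rfl
  have h2 : ∀ g : G, (fromInd k S).hom (IndV.mk S.subtype (Rep.trivial k S k).ρ g (1 : k)) =
      (1 : k) := by
    intro g
    simp [fromInd]
  change (fromInd k S).hom ((Rep.indCoindIso (Rep.trivial k S k)).inv.hom
    ((toCoind k S).hom (1 : k))) = _
  rw [h1, Rep.coindToInd_apply, map_sum]
  have h3 : ∀ q : Quotient (QuotientGroup.rightRel S),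
      (fromInd k S).hom (Quotient.liftOn q (fun g =>
        IndV.mk S.subtype (Rep.trivial k S k).ρ g (((toCoind k S).hom (1 : k)).1 g)) (by
          intro g₁ g₂ ⟨s, (hs : _ * _ = _)⟩
          exact (Submodule.Quotient.eq _).2 <| Coinvariants.mem_ker_of_eq s
            (.single g₂ 1 ⊗ₜ[k] ((toCoind k S).hom (1 : k)).1 g₂) _ <| by
              have := ((toCoind k S).hom (1 : k)).2 s g₂; simp_all)) = (1 : k) := by
    intro q
    induction q using Quotient.inductionOn with | h g =>
    exact h2 g
  rw [Finset.sum_congr rfl fun q _ => h3 q]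
  have h4 : (Rep.Hom.hom (S.index • 𝟙 (Rep.trivial k G k))) (1 : k) =
      S.index • (1 : k) := rfl
  have h5 : Fintype.card (_root_.Quotient (QuotientGroup.rightRel S)) = S.index := by
    rw [Subgroup.index_eq_card, ← Nat.card_eq_fintype_card]
    exact Nat.card_congr (QuotientGroup.quotientRightRelEquivQuotientLeftRel S)
  simp only [Finset.sum_const, Finset.card_univ, h5]
  exact h4.symm

theorem chainsMap_add (k : Type) [CommRing k] {A B : Rep.{0} k G} (φ ψ : A ⟶ B) :
    groupHomology.chainsMap (MonoidHom.id G) (φ + ψ) =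
      groupHomology.chainsMap (B := B) (MonoidHom.id G) φ +
        groupHomology.chainsMap (B := B) (MonoidHom.id G) ψ := by
  refine HomologicalComplex.hom_ext _ _ fun i => ModuleCat.hom_ext ?_
  refine Finsupp.lhom_ext fun x a => ?_
  rw [HomologicalComplex.add_f_apply, ModuleCat.hom_add, LinearMap.add_apply,
    groupHomology.chainsMap_id_f_hom_eq_mapRange, groupHomology.chainsMap_id_f_hom_eq_mapRange,
    groupHomology.chainsMap_id_f_hom_eq_mapRange]
  simp only [Finsupp.mapRange.linearMap_apply, Finsupp.mapRange_single]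
  rw [← Finsupp.single_add]
  rfl

instance (k : Type) [CommRing k] (n : ℕ) : (groupHomology.functor k G n).Additive where
  map_add {A B φ ψ} := by
    exact (congrArg (fun t => HomologicalComplex.homologyMap t n) (chainsMap_add k φ ψ)).trans
      (HomologicalComplex.homologyMap_add _ _ n)

open Classical in
/-- If `Hₙ(S; k) = 0` then `Hₙ(G; k)` is killed by the index of `S`. -/
theorem index_smul_eq_zero (k : Type) [CommRing k] (S : Subgroup G) [S.FiniteIndex] (n : ℕ)
    (h : Limits.IsZero (groupHomology (Rep.trivial k S k) n)) :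
    S.index • 𝟙 (groupHomology (Rep.trivial k G k) n) = 0 := by
  have h1 : Limits.IsZero ((groupHomology.functor k G n).obj
      (Rep.ind S.subtype (Rep.trivial k S k))) :=
    h.of_iso (groupHomology.indIso S (Rep.trivial k S k) n)
  set F := groupHomology.functor k G n with hF
  have h2 : F.map (S.index • 𝟙 (Rep.trivial k G k)) = S.index • 𝟙 (F.obj (Rep.trivial k G k)) := by
    rw [Functor.map_nsmul, CategoryTheory.Functor.map_id]
  have h3 : F.map (Rep.indCoindIso (Rep.trivial k S k)).inv = 0 := h1.eq_of_tgt _ _
  have h4 : S.index • 𝟙 (F.obj (Rep.trivial k G k)) = 0 := by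
    rw [← h2, ← comp_eq k S, Functor.map_comp, Functor.map_comp, h3, Limits.zero_comp,
      Limits.comp_zero]
  exact h4

/-- If `Hₙ(S; k) = 0 = Hₙ(T; k)` for two subgroups of coprime index then `Hₙ(G; k) = 0`. -/
theorem isZero_of_coprime (k : Type) [CommRing k] (S T : Subgroup G) [S.FiniteIndex]
    [T.FiniteIndex] (hc : Nat.Coprime S.index T.index) (n : ℕ)
    (hS : Limits.IsZero (groupHomology (Rep.trivial k S k) n))
    (hT : Limits.IsZero (groupHomology (Rep.trivial k T k) n)) :
    Limits.IsZero (groupHomology (Rep.trivial k G k) n) := by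
  rw [Limits.IsZero.iff_id_eq_zero]
  have h1 := index_smul_eq_zero k S n hS
  have h2 := index_smul_eq_zero k T n hT
  have h3 : (S.index : ℤ) * Nat.gcdA S.index T.index + (T.index : ℤ) * Nat.gcdB S.index T.index
      = 1 := by
    rw [← Nat.gcd_eq_gcd_ab]
    exact_mod_cast hc
  have h1' : (S.index : ℤ) • 𝟙 (groupHomology (Rep.trivial k G k) n) = 0 := by
    rw [natCast_zsmul]; exact h1
  have h2' : (T.index : ℤ) • 𝟙 (groupHomology (Rep.trivial k G k) n) = 0 := by
    rw [natCast_zsmul]; exact h2
  calc 𝟙 (groupHomology (Rep.trivial k G k) n)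
      = (1 : ℤ) • 𝟙 (groupHomology (Rep.trivial k G k) n) := (one_zsmul _).symm
    _ = 0 := by
      rw [← h3, add_zsmul, mul_comm, mul_zsmul, h1', mul_comm, mul_zsmul, h2', zsmul_zero,
        zsmul_zero, add_zero]

/-- the even positive integral homology of a finite cyclic group vanishes -/
theorem isZero_cyclic_even (C : Type) [CommGroup C] [Fintype C] [DecidableEq C] (g : C)
    (hg : ∀ x, x ∈ Subgroup.zpowers g) (i : ℕ) [NeZero i] (hi : Even i) :
    Limits.IsZero (groupHomology (Rep.trivial ℤ C ℤ) i) := by
  refine Limits.IsZero.of_iso ?_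
    (Rep.FiniteCyclicGroup.groupHomologyIsoEven (Rep.trivial ℤ C ℤ) g hg i hi)
  rw [← ShortComplex.exact_iff_isZero_homology, ShortComplex.moduleCat_exact_iff]
  intro x hx
  refine ⟨0, ?_⟩
  have h1 : (Fintype.card C : ℤ) * x = 0 := by
    have : (Rep.FiniteCyclicGroup.subCompNormHom (Rep.trivial ℤ C ℤ) g).g x =
        (Fintype.card C : ℤ) * x := by
      simp [Rep.FiniteCyclicGroup.subCompNormHom, Rep.norm, Representation.norm]
    rw [← this]; exact hx
  have h2 : (Fintype.card C : ℤ) ≠ 0 := by
    exact_mod_cast Fintype.card_ne_zero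
  have h3 : x = 0 := (mul_eq_zero.1 h1).resolve_left h2
  rw [h3, map_zero]

/-- the rational homology of the trivial group vanishes in positive degrees, in the form needed
for subgroups with one element -/
theorem isZero_subsingleton (k : Type) [CommRing k] (C : Type) [CommGroup C] [Fintype C]
    [DecidableEq C] (h1 : Fintype.card C = 1) (i : ℕ) [NeZero i] :
    Limits.IsZero (groupHomology (Rep.trivial k C k) i) := by
  have : Subsingleton C := Fintype.card_le_one_iff_subsingleton.1 h1.le
  have hg : ∀ x, x ∈ Subgroup.zpowers (1 : C) := fun x => by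
    rw [Subsingleton.elim x 1]; exact Subgroup.one_mem _
  rcases Nat.even_or_odd i with hi | hi
  · refine Limits.IsZero.of_iso ?_
      (Rep.FiniteCyclicGroup.groupHomologyIsoEven (Rep.trivial k C k) 1 hg i hi)
    rw [← ShortComplex.exact_iff_isZero_homology, ShortComplex.moduleCat_exact_iff]
    intro x hx
    refine ⟨0, ?_⟩
    have h2 : (Rep.FiniteCyclicGroup.subCompNormHom (Rep.trivial k C k) (1 : C)).g x =
        (Fintype.card C : k) * x := by
      simp [Rep.FiniteCyclicGroup.subCompNormHom, Rep.norm, Representation.norm]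
    rw [h1] at h2
    have h3 : x = 0 := by
      rw [Nat.cast_one, one_mul] at h2
      rw [← h2]; exact hx
    rw [h3, map_zero]
  · refine Limits.IsZero.of_iso ?_
      (Rep.FiniteCyclicGroup.groupHomologyIsoOdd (Rep.trivial k C k) 1 hg i hi)
    rw [← ShortComplex.exact_iff_isZero_homology, ShortComplex.moduleCat_exact_iff]
    intro x hx
    refine ⟨x, ?_⟩
    have h2 : (Rep.FiniteCyclicGroup.normHomCompSub (Rep.trivial k C k) (1 : C)).f x =
        (Fintype.card C : k) * x := by
      simp [Rep.FiniteCyclicGroup.normHomCompSub, Rep.norm, Representation.norm]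
    rw [h2, h1, Nat.cast_one, one_mul]

end Pool.Agent.H890R2.Geo4
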